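import Pool.Agent.P.MP_df609a_nt.Odd.Chk

/-! Arithmetic lemmas for the search procedure. -/

namespace Pool.Agent.P.MP_df609a_nt.Odd

open Finset

/-- geometric sum -/
def g (p n : ℕ) : ℕ := ∑ i ∈ range n, p ^ i

theorem g_succ (p n : ℕ) : g p (n + 1) = p * g p n + 1 := geom_sum_succ

theorem g_succ' (p n : ℕ) : g p (n + 1) = g p n + p ^ n := sum_range_succ _ _

theorem g_two (p e : ℕ) : g p (e + 2 + 1) = g p (e + 1) * p * p + (p + 1) := by
  rw [g_succ, g_succ p (e + 1)]; ring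

theorem g_mono (p : ℕ) {e a : ℕ} (h : e ≤ a) : g p (e + 1) * p ^ a ≤ p ^ e * g p (a + 1) := by
  induction a, h using Nat.le_induction with
  | base => rw [mul_comm]
  | succ a _ ih => rw [g_succ p (a + 1), pow_succ]; nlinarith [Nat.zero_le (p ^ e)]

theorem g_hi {p : ℕ} (hp : 1 ≤ p) (a : ℕ) : g p (a + 1) * (p - 1) ≤ p * p ^ a := by
  obtain ⟨m, rfl⟩ : ∃ m, p = m + 1 := ⟨p - 1, by omega⟩
  have := geom_sum_mul_add m (a + 1)
  rw [Nat.add_sub_cancel, ← pow_succ', ← this]
  exact Nat.le_succ _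

theorem g_ge (p a : ℕ) : p ^ a ≤ g p (a + 1) := by rw [g_succ']; omega

theorem g_lo {q a : ℕ} (h : 1 ≤ a) : (q + 1) * q ^ a ≤ q * g q (a + 1) := by
  have := g_mono q h
  simpa [g, sum_range_succ, add_comm] using this

theorem g_mod3 {p a : ℕ} (hp : p % 3 ≠ 1) (ha : Even a) : g p (a + 1) % 3 = 1 := by
  obtain ⟨c, rfl⟩ := ha
  induction c with
  | zero => simp [g]
  | succ c ih =>
    rw [show c + 1 + (c + 1) = c + c + 2 by ring, g_two]
    rcases (show p % 3 = 0 ∨ p % 3 = 2 by omega) with e | e <;>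
      simp [Nat.add_mod, Nat.mul_mod, ih, e]

theorem g_mod5 {p a : ℕ} (hp : p % 5 ≠ 1) (ha : Even a) : ¬ 5 ∣ g p (a + 1) := by
  obtain ⟨c, rfl⟩ := ha
  have : g p (c + c + 1) % 5 = 1 ∨ g p (c + c + 1) % 5 = (p * p + p + 1) % 5 := by
    induction c with
    | zero => simp [g]
    | succ c ih =>
      rw [show c + 1 + (c + 1) = c + c + 2 by ring, g_two]
      rcases (show p % 5 = 0 ∨ p % 5 = 2 ∨ p % 5 = 3 ∨ p % 5 = 4 by omega) with e | e | e | e <;>
        rcases ih with ih | ih <;> simp [Nat.add_mod, Nat.mul_mod, ih, e]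
  rw [Nat.dvd_iff_mod_eq_zero]
  rcases (show p % 5 = 0 ∨ p % 5 = 2 ∨ p % 5 = 3 ∨ p % 5 = 4 by omega) with e | e | e | e <;>
    rcases this with h | h <;> simp [h, Nat.add_mod, Nat.mul_mod, e]

theorem bad_res {n : ℕ} (h : bad n = true) : n % 40 = 3 ∨ n % 40 = 17 ∨ n % 40 = 21 ∨ n % 40 = 27 ∨
    n % 40 = 29 ∨ n % 40 = 31 ∨ n % 40 = 33 ∨ n % 40 = 39 := by
  have key : ∀ r < 40, bad r = true → r = 3 ∨ r = 17 ∨ r = 21 ∨ r = 27 ∨ r = 29 ∨ r = 31 ∨
      r = 33 ∨ r = 39 := by decide +kernel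
  refine key _ (Nat.mod_lt _ (by norm_num)) ?_
  rw [← h]
  unfold bad
  congr 3
  exact Nat.mod_mod n 40

theorem not_bad {x d : ℕ} (hx : IsSquare x) (hd : d ∣ 2 * x + 5) : bad d = false := by
  by_contra h
  have h1 := bad_res (Bool.not_eq_false _ ▸ h)
  have h2 : jacobiSym (-10) d = -1 := by
    rw [jacobiSym.mod_right _ (Nat.odd_iff.2 (by omega)), show 4 * (-10 : ℤ).natAbs = 40 by rfl]
    rcases h1 with e | e | e | e | e | e | e | e <;> rw [e] <;> norm_num
  obtain ⟨m, rfl⟩ := hx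
  refine ZMod.nonsquare_of_jacobiSym_eq_neg_one h2 ⟨2 * m, ?_⟩
  have := (ZMod.natCast_eq_zero_iff _ _).2 hd
  push_cast at this ⊢
  linear_combination -2 * this

theorem cop_BP {x : ℕ} (hx : IsSquare x) : Nat.Coprime BP (2 * x + 5) := by
  have e : BP = badList.prod := by decide +kernel
  rw [e, Nat.coprime_list_prod_left_iff]
  intro l hl
  have h1 : l.Prime ∧ bad l = true := by
    revert l
    simp only [badList, List.forall_mem_cons]
    refine ⟨?_, ?_, ?_, ?_, ?_, ?_, ?_, ?_, ?_, ?_, ?_, ?_, ?_, ?_, ?_, ?_, ?_, ?_, ?_, ?_, ?_, ?_,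
      ?_, ?_, by simp⟩ <;> exact ⟨by norm_num, by decide +kernel⟩
  rw [h1.1.coprime_iff_not_dvd]
  intro h
  simp [not_bad hx h] at h1

theorem mp_prime {q : ℕ} (hq : q.Prime) (h5 : 5 < q) : mp q = true := by
  have k1 : ∀ {N n : ℕ}, N ∣ n.factorial → n < q → Nat.beq (Nat.gcd q N) 1 = true := fun a b => by
    rw [Nat.beq_eq]
    exact hq.coprime_iff_not_dvd.2 fun h => absurd (hq.dvd_factorial.1 (h.trans a)) (by omega)
  unfold mp
  cases h1 : Nat.ble 600 q
  · cases h2 : Nat.ble 24 q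
    · show Nat.ble 1 (q % 3) = true
      rw [Nat.ble_eq, Nat.one_le_iff_ne_zero]
      intro h
      have := (Nat.prime_dvd_prime_iff_eq Nat.prime_three hq).1 (Nat.dvd_of_mod_eq_zero h)
      omega
    · exact k1 (n := 23) (by decide +kernel) (Nat.le_of_ble_eq_true h2)
  · exact k1 (n := 599) (by decide +kernel) (Nat.le_of_ble_eq_true h1)

theorem DD_pos (L r : ℕ) : 0 < DD L r := by
  induction r generalizing L with
  | zero => simp [DD]
  | succ r ih => exact Nat.mul_pos (by omega) (ih _)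

theorem rem_hi (f : ℕ → ℕ) (r : ℕ) : ∀ (L : ℕ) (s : Finset ℕ), Odd L → s.card = r →
    (∀ q ∈ s, Odd q ∧ L < q) →
    (∏ q ∈ s, g q (f q + 1)) * DD L r ≤ NN L r * ∏ q ∈ s, q ^ f q := by
  induction r with
  | zero => intro L s _ hs _; rw [card_eq_zero.1 hs]; simp [NN, DD]
  | succ r ih =>
    intro L s hL hs h
    have hne : s.Nonempty := card_pos.1 (by omega)
    obtain ⟨q, hq, hmin⟩ := exists_min_image s id hne
    obtain ⟨o1, o2⟩ := h q hq
    have o3 : L + 2 ≤ q := by
      rw [Nat.odd_iff] at hL o1; omega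
    have i1 := ih (L + 2) (s.erase q) (hL.add_even (by decide)) (by rw [card_erase_of_mem hq]; omega)
      fun z hz => ⟨(h z (mem_of_mem_erase hz)).1, by
        have := hmin z (mem_of_mem_erase hz)
        have := ne_of_mem_erase hz
        simp only [id] at *
        omega⟩
    have i2 : g q (f q + 1) * (L + 1) ≤ (L + 2) * q ^ f q := by
      have a := g_hi (show 1 ≤ q by omega) (f q)
      obtain ⟨m, rfl⟩ : ∃ m, q = L + 2 + m := ⟨q - (L + 2), by omega⟩
      rw [show L + 2 + m - 1 = L + 1 + m by omega] at a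
      have b := g_ge (L + 2 + m) (f (L + 2 + m))
      nlinarith [Nat.mul_le_mul_left m b]
    rw [← mul_prod_erase s _ hq, ← mul_prod_erase s (fun q => q ^ f q) hq, NN, DD]
    calc _ = g q (f q + 1) * (L + 1) * ((∏ q ∈ s.erase q, g q (f q + 1)) * DD (L + 2) r) := by ring
      _ ≤ _ := Nat.mul_le_mul i2 i1
      _ = _ := by ring

theorem rem_lo (f : ℕ → ℕ) (s : Finset ℕ) : ∏ q ∈ s, q ^ f q ≤ ∏ q ∈ s, g q (f q + 1) :=
  prod_le_prod' fun q _ => g_ge q _

theorem ins_perm (o : O) (l : List O) : (ins o l).Perm (o :: l) := by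
  induction l with
  | nil => exact List.Perm.refl _
  | cons x t ih =>
    show List.Perm (Bool.rec (x :: ins o t) (o :: x :: t) _) _
    cases Nat.ble (Nat.mul o.2.1 o.1) (Nat.mul x.2.1 x.1)
    · exact (ih.cons x).trans (List.Perm.swap _ _ _)
    · exact List.Perm.refl _

theorem lp_spec {f : ℕ → Bool} {st q n : ℕ} (h : lp f st q n = true) :
    ∀ i < n, f (q + st * i) = true := by
  induction n with
  | zero => simp
  | succ n ih =>
    have h' : Bool.rec false (lp f st q n) (f (q + st * n)) = true := h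
    cases e : f (q + st * n)
    · rw [e] at h'; exact absurd h' (by simp)
    · rw [e] at h'
      intro i hi
      rcases Nat.lt_succ_iff_lt_or_eq.1 hi with c | rfl
      · exact ih h' i c
      · exact e

theorem rng_spec {f : ℕ → Bool} {st q Q : ℕ} (h : rng f st q Q = true) (hst : 0 < st) (i : ℕ)
    (hi : q + st * i ≤ Q) : f (q + st * i) = true := by
  have h1 := lp_spec h (i / 64) (Nat.lt_succ_of_le (by
    rw [Nat.le_div_iff_mul_le (by omega)]
    have := Nat.div_mul_le_self i 64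
    have : i / 64 * (64 * st) ≤ st * i := by nlinarith
    omega))
  have h2 := lp_spec h1 (i % 64) (Nat.mod_lt _ (by norm_num))
  have e : q + 64 * st * (i / 64) + st * (i % 64) = q + st * i := by
    have := Nat.div_add_mod i 64
    calc _ = q + st * (64 * (i / 64) + i % 64) := by ring
      _ = _ := by rw [this]
  rw [e, Nat.ble_eq_true_of_le hi] at h2
  exact h2

theorem nxt_spec {q st c z : ℕ} (hc : c < st) (hz : q < z) (hm : z % st = c) :
    ∃ i, z = nxt q st c + st * i := by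
  have hst : 0 < st := by omega
  show ∃ i, z = q + 1 + (c + st - (q + 1) % st) % st + st * i
  obtain ⟨d, rfl⟩ : ∃ d, z = q + 1 + d := ⟨z - (q + 1), by omega⟩
  refine ⟨d / st, ?_⟩
  have h1 := Nat.mod_lt (q + 1) hst
  have h2 := Nat.mod_lt d hst
  have h3 := Nat.mod_add_div d st
  rw [Nat.add_mod] at hm
  generalize (q + 1) % st = u at *
  generalize d % st = v at *
  have : (c + st - u) % st = v := by
    rcases lt_or_ge (u + v) st with e | e
    · rw [Nat.mod_eq_of_lt e] at hm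
      rw [show c + st - u = v + st by omega, Nat.add_mod_right, Nat.mod_eq_of_lt h2]
    · rw [Nat.mod_eq_sub_mod e, Nat.mod_eq_of_lt (by omega)] at hm
      rw [show c + st - u = v by omega, Nat.mod_eq_of_lt h2]
  omega

theorem nf_spec {p R a : ℕ} {k : ℕ → ℕ → Bool} (ha : Even a) (h1 : bad (g p (a + 1)) = false)
    (h2 : Nat.gcd (g p (a + 1)) R = 1) (fuel : ℕ) : ∀ e, Even e → e ≤ a →
    nf p R k fuel (p ^ e) (g p (e + 1)) = true →
    ∃ e', Even e' ∧ e' ≤ a ∧ k (p ^ e') (g p (e' + 1)) = true := by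
  induction fuel with
  | zero => exact fun e b c h => ⟨e, b, c, h⟩
  | succ n ih =>
    intro e b c h
    have h' : Bool.rec (nf p R k n (p ^ e * p * p) (g p (e + 1) * p * p + (p + 1)))
        (k (p ^ e) (g p (e + 1)))
        (Bool.rec (Nat.beq (Nat.gcd (g p (e + 1)) R) 1) false (bad (g p (e + 1)))) = true := h
    cases t : (Bool.rec (Nat.beq (Nat.gcd (g p (e + 1)) R) 1) false (bad (g p (e + 1))) : Bool)
    · rw [t, ← g_two, ← pow_succ, ← pow_succ] at h'
      refine ih (e + 2) (b.add (by decide)) ?_ h'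
      have : e ≠ a := by
        rintro rfl
        rw [h1, h2] at t
        exact absurd t (by decide)
      obtain ⟨u, hu⟩ := ha
      obtain ⟨v, hv⟩ := b
      omega
    · rw [t] at h'
      exact ⟨e, b, c, h'⟩

end Pool.Agent.P.MP_df609a_nt.Odd
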