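import Mathlib

/-! A search procedure for odd solutions of `σ(x) = 2 x + 5` with few prime factors. -/

namespace Pool.Agent.P.MP_df609a_nt.Odd

noncomputable section

/-- an open component: prime, prime power, divisor sum -/
abbrev O := ℕ × ℕ × ℕ

/-- residues modulo forty at which minus ten is not a square -/
def bad (n : ℕ) : Bool := Nat.beq (Nat.land (Nat.shiftRight 561166549000 (Nat.mod n 40)) 1) 1

/-- product of the odd primes below six hundred -/
def PR : ℕ := 15796600294037956844985091438003776785454710833130209692714649699201264972258586644950260173576675246748640065901213561299849163276439036837866835909333113485215742914915133284613259020962671395492860334236721309940270575538338769703502447851755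

/-- small primes that cannot divide the divisor sum -/
def badList : List ℕ := [3, 17, 29, 31, 43, 61, 67, 71, 73, 79, 83, 97, 101, 107, 109, 113, 137, 149, 151, 163, 181, 191, 193, 199]

/-- their product -/
def BP : ℕ := 2358657575511948594028282686280529906772150321

/-- a test that is true on primes above five -/
def mp (q : ℕ) : Bool :=
  Bool.rec (Bool.rec (Nat.ble 1 (Nat.mod q 3)) (Nat.beq (Nat.gcd q 111546435) 1) (Nat.ble 24 q))
    (Nat.beq (Nat.gcd q PR) 1) (Nat.ble 600 q)

/-- skip infeasible exponents -/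
def nf (p R : ℕ) (k : ℕ → ℕ → Bool) (fuel : ℕ) : ℕ → ℕ → Bool :=
  Nat.rec k (fun _ ih P S => Bool.rec
    (ih (Nat.mul (Nat.mul P p) p) (Nat.add (Nat.mul (Nat.mul S p) p) (Nat.add p 1))) (k P S)
    (Bool.rec (Nat.beq (Nat.gcd S R) 1) false (bad S))) fuel

/-- ordered insertion -/
def ins (o : O) (l : List O) : List O :=
  List.rec [o] (fun x t ih => Bool.rec (x :: ih) (o :: x :: t)
    (Nat.ble (Nat.mul o.2.1 o.1) (Nat.mul x.2.1 x.1))) l

/-- test `f` on `n` terms of an arithmetic progression -/
def lp (f : ℕ → Bool) (st q n : ℕ) : Bool :=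
  Nat.rec true (fun i ih => Bool.rec false ih (f (Nat.add q (Nat.mul st i)))) n

/-- test `f` on the terms up to `Q` of an arithmetic progression -/
def rng (f : ℕ → Bool) (st q Q : ℕ) : Bool :=
  lp (fun q' => lp (fun z => Bool.rec true (f z) (Nat.ble z Q)) st q' 64) (64 * st) q
    ((Q - q) / (64 * st) + 1)

/-- numerator of the bound for `r` odd primes above `L` -/
def NN (L : ℕ) : ℕ → ℕ
  | 0 => 1
  | r + 1 => (L + 2) * NN (L + 2) r

/-- denominator of the bound for `r` odd primes above `L` -/
def DD (L : ℕ) : ℕ → ℕ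
  | 0 => 1
  | r + 1 => (L + 1) * DD (L + 2) r

/-- type of the recursive call -/
abbrev Go := ℕ → ℕ → List O → ℕ → ℕ → ℕ → ℕ → ℕ → ℕ → ℕ → Bool

/-- the next prime is `q` -/
def cand (ih : Go) (A B : ℕ) (ops : List O) (r R ln ld hn H q : ℕ) : Bool :=
  Bool.rec true (Bool.rec
    (nf q (Nat.mul R q) (fun P S => ih A B (ins (q, P, S) ops) r q (Nat.mul R q) (Nat.mul ln S)
      (Nat.mul ld P) (Nat.mul hn q) (Nat.mul H (Nat.sub q 1))) 60 (Nat.mul q q)
      (Nat.add (Nat.mul q q) (Nat.add q 1))) true (Nat.beq (Nat.mod A q) 0)) (mp q)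

/-- the exponent of `p` is fixed -/
def close (five : Bool) (ih : Go) (A B : ℕ) (rest : List O) (r L R ln ld hn H p P S : ℕ) : Bool :=
  Bool.rec true (Bool.rec
    (ih (Nat.mul A S) (Nat.mul B P) rest r L R ln ld (Nat.mul (Nat.div hn p) S)
      (Nat.div H (Nat.sub p 1))) true
    (Bool.rec false (Nat.beq (Nat.mod (Nat.mul A S) 25) 0) five)) (Nat.beq (Nat.gcd S R) 1)

/-- fix the exponent of the first open prime, or increase it -/
def refine (five : Bool) (ih : Go) (A B : ℕ) (ops : List O) (r L R ln ld hn H : ℕ) : Bool :=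
  List.rec false (fun o rest _ => Bool.rec false
    (nf o.1 R (fun P S => ih A B (ins (o.1, P, S) rest) r L R (Nat.mul (Nat.div ln o.2.2) S)
      (Nat.mul (Nat.div ld o.2.1) P) hn H) 60 (Nat.mul (Nat.mul o.2.1 o.1) o.1)
      (Nat.add (Nat.mul (Nat.mul o.2.2 o.1) o.1) (Nat.add o.1 1)))
    (close five ih A B rest r L R ln ld hn H o.1 o.2.1 o.2.2)) ops

/-- a prime congruent to one modulo three is still needed -/
def n3 (three : Bool) (A H : ℕ) : Bool :=
  Bool.rec false (Bool.rec (Nat.ble 1 (Nat.mod H 3)) false (Nat.beq (Nat.mod A 3) 2)) three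

/-- a prime congruent to one modulo five is still needed -/
def n5 (five : Bool) (A H : ℕ) : Bool :=
  Bool.rec false (Bool.rec (Nat.ble 1 (Nat.mod H 5)) false (Nat.beq (Nat.mod A 5) 0)) five

/-- the larger of two numbers -/
def mx (a b : ℕ) : ℕ := Bool.rec a b (Nat.ble a b)

/-- primes up to this bound make the number too abundant -/
def low (L ln a : ℕ) : ℕ := mx L (Nat.div (Nat.sub ln 6) a)

/-- least number above `q` congruent to `c` modulo `st` -/
def nxt (q st c : ℕ) : ℕ :=
  Nat.add (Nat.add q 1) (Nat.mod (Nat.sub (Nat.add c st) (Nat.mod (Nat.add q 1) st)) st)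

/-- one prime is left -/
def one (five : Bool) (ih : Go) (A B : ℕ) (ops : List O) (L R ln ld hn H st q Q : ℕ) : Bool :=
  Bool.rec true (Bool.rec
    (Bool.rec false (Bool.rec true (cand ih A B ops 0 R ln ld hn H (Nat.add q st))
      (Nat.ble (Nat.add q st) Q)) (cand ih A B ops 0 R ln ld hn H q))
    (refine five ih A B ops 1 L R ln ld hn H) (Nat.ble (Nat.add q (Nat.mul 2 st)) Q)) (Nat.ble q Q)

/-- at least two primes are left -/
def many (five : Bool) (M c : ℕ) (ih : Go) (A B : ℕ) (ops : List O)
    (r L R ln ld hn H hd a b Q : ℕ) : Bool :=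
  Nat.ble (hn * NN L (r + 2)) (hd * DD L (r + 2)) ||
    cond (Nat.ble (22 * b * ld) (10 * a * hd) && !ops.isEmpty)
      (refine five ih A B ops (r + 2) L R ln ld hn H)
      (Nat.ble (hn * NN (2 * Q + 1) (r + 2)) (hd * DD (2 * Q + 1) (r + 2)) &&
        cond (Nat.beq r 0)
          (rng (cand ih A B ops (r + 1) R ln ld hn H) M (nxt (low L ln a) M c) (2 * Q + 1))
          (rng (cand ih A B ops (r + 1) R ln ld hn H) 2 (nxt (low L ln a) 2 1) (2 * Q + 1)))

/-- at least one prime is left -/
def pos (five : Bool) (M c : ℕ) (ih : Go) (A B : ℕ) (ops : List O)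
    (r L R ln ld hn H hd a b st : ℕ) : Bool :=
  Nat.rec (one five ih A B ops L R ln ld hn H st (nxt (low L ln a) st 1) (Nat.add (Nat.div hn b) 1))
    (fun r _ => many five M c ih A B ops r L R ln ld hn H hd a b (((r + 2) * hn / b + (r + 2)) / 2)) r

/-- one node of the search -/
def node (three five : Bool) (M c : ℕ) (ih : Go) (A B : ℕ) (ops : List O)
    (r L R ln ld hn H hd : ℕ) : Bool :=
  Nat.rec (Bool.rec (Bool.rec (Bool.rec (refine five ih A B ops 0 L R ln ld hn H) true (n5 five A H))
      true (n3 three A H)) true (Nat.ble hn hd))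
    (fun r _ => Bool.rec
      (pos five M c ih A B ops r L R ln ld hn H hd (Nat.sub (Nat.mul 2 ld) ln) (Nat.sub hd hn)
        (Nat.mul (Bool.rec 2 6 (n3 three A H)) (Bool.rec 1 5 (n5 five A H))))
      (refine five ih A B ops (Nat.add r 1) L R ln ld hn H) (Nat.ble hd hn)) r

/-- the search -/
def go (three five : Bool) (M c : ℕ) (fuel : ℕ) : Go :=
  Nat.rec (fun _ _ _ _ _ _ _ _ _ _ => false) (fun _ ih A B ops r L R ln ld hn H =>
    Bool.rec (node three five M c ih A B ops r L R ln ld hn H (Nat.mul 2 (Nat.mul B H))) true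
      (Nat.ble (Nat.add (Nat.mul 2 ld) 6) ln)) fuel

/-- start: three and five divide, `r` primes above five -/
def s35 (M c r : ℕ) : Bool :=
  go true true M c 40 1 1 [(3, 9, 13), (5, 25, 31)] r 5 BP 403 225 15 8

/-- start: three divides, five does not -/
def s3 (M c r : ℕ) : Bool := go true false M c 40 1 1 [(3, 9, 13)] r 5 (BP * 5) 13 9 3 2

/-- start: five divides, three does not -/
def s5 (M c r : ℕ) : Bool := go false true M c 40 1 1 [(5, 25, 31)] r 5 BP 31 25 5 4

/-- start: neither three nor five divides -/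
def s1 (M c r : ℕ) : Bool := go false false M c 40 1 1 [] r 5 (BP * 5) 1 1 1 1

end

end Pool.Agent.P.MP_df609a_nt.Odd
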