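import Pool.Agent.P.MP_df609a_nt.Odd.Ar

/-! The invariant of the search and its arithmetic consequences. -/

namespace Pool.Agent.P.MP_df609a_nt.Odd

open Finset

/-- an open component is consistent with the exponent function -/
def OK (f : ℕ → ℕ) (o : O) : Prop :=
  2 ≤ o.1 ∧ Even (f o.1) ∧ ∃ e, Even e ∧ e ≤ f o.1 ∧ o.2.1 = o.1 ^ e ∧ o.2.2 = g o.1 (e + 1)

/-- the invariant -/
structure Inv (x : ℕ) (f : ℕ → ℕ) (M c A B : ℕ) (ops : List O) (Rem : Finset ℕ)
    (L R ln ld hn H : ℕ) : Prop where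
  pos : 0 < x
  sq : IsSquare x
  ex : B * (ops.map fun o => o.1 ^ f o.1).prod * ∏ q ∈ Rem, q ^ f q = x
  es : A * (ops.map fun o => g o.1 (f o.1 + 1)).prod * ∏ q ∈ Rem, g q (f q + 1) = 2 * x + 5
  ok : ∀ o ∈ ops, OK f o
  rem : ∀ q ∈ Rem, q.Prime ∧ L < q ∧ Even (f q) ∧ 2 ≤ f q
  l5 : 5 ≤ L
  lodd : Odd L
  cop : Nat.Coprime R (2 * x + 5)
  eln : ln = A * (ops.map fun o => o.2.2).prod
  eld : ld = B * (ops.map fun o => o.2.1).prod
  ehn : hn = A * (ops.map fun o => o.1).prod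
  eH : H = (ops.map fun o => o.1 - 1).prod
  sp : ∀ q ∈ Rem, (Rem.filter (q < ·)).card = 1 → q % M = c

theorem ops_ineq {f : ℕ → ℕ} {ops : List O} (h : ∀ o ∈ ops, OK f o) :
    (ops.map fun o => o.2.2).prod * (ops.map fun o => o.1 ^ f o.1).prod ≤
      (ops.map fun o => o.2.1).prod * (ops.map fun o => g o.1 (f o.1 + 1)).prod ∧
    (ops.map fun o => o.2.1).prod ≤ (ops.map fun o => o.1 ^ f o.1).prod ∧
    (ops.map fun o => g o.1 (f o.1 + 1)).prod * (ops.map fun o => o.1 - 1).prod ≤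
      (ops.map fun o => o.1).prod * (ops.map fun o => o.1 ^ f o.1).prod ∧
    0 < (ops.map fun o => o.1 - 1).prod ∧
    ((ops.map fun o => o.1 - 1).prod % 3 ≠ 0 → (ops.map fun o => g o.1 (f o.1 + 1)).prod % 3 = 1) ∧
    ((ops.map fun o => o.1 - 1).prod % 5 ≠ 0 → ¬ 5 ∣ (ops.map fun o => g o.1 (f o.1 + 1)).prod) := by
  induction ops with
  | nil => simp
  | cons o t ih =>
    obtain ⟨⟨h2, ev, e, -, he, hP, hS⟩, ht⟩ := List.forall_mem_cons.1 h
    obtain ⟨i1, i2, i3, i4, i5, i6⟩ := ih ht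
    simp only [List.map_cons, List.prod_cons, hP, hS]
    refine ⟨?_, Nat.mul_le_mul (Nat.pow_le_pow_right (by omega) he) i2, ?_,
      Nat.mul_pos (by omega) i4, fun k => ?_, fun k => ?_⟩
    · have := Nat.mul_le_mul (g_mono o.1 he) i1
      calc _ = _ := by ring
        _ ≤ _ := this
        _ = _ := by ring
    · have := Nat.mul_le_mul (g_hi (show 1 ≤ o.1 by omega) (f o.1)) i3
      calc _ = _ := by ring
        _ ≤ _ := this
        _ = _ := by ring
    · rw [Ne, ← Nat.dvd_iff_mod_eq_zero] at k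
      have k1 : o.1 % 3 ≠ 1 := fun a => k (Dvd.dvd.mul_right (by omega) _)
      rw [Nat.mul_mod, g_mod3 k1 ev,
        i5 fun a => k (Dvd.dvd.mul_left (Nat.dvd_of_mod_eq_zero a) _)]
    · rw [Ne, ← Nat.dvd_iff_mod_eq_zero] at k
      have k1 : o.1 % 5 ≠ 1 := fun a => k (Dvd.dvd.mul_right (by omega) _)
      exact fun d => (Nat.prime_five.dvd_mul.1 d).elim (g_mod5 k1 ev)
        (i6 fun a => k (Dvd.dvd.mul_left (Nat.dvd_of_mod_eq_zero a) _))

variable {x : ℕ} {f : ℕ → ℕ} {M c A B : ℕ} {ops : List O} {Rem : Finset ℕ} {L R ln ld hn H : ℕ}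

theorem Inv.ab (h : Inv x f M c A B ops Rem L R ln ld hn H) {u v : ℕ}
    (h1 : u * ∏ q ∈ Rem, q ^ f q ≤ v * ∏ q ∈ Rem, g q (f q + 1)) (h2 : v ≤ ∏ q ∈ Rem, q ^ f q) :
    ln * u < 2 * ld * v + 6 := by
  obtain ⟨i1, i2, -⟩ := ops_ineq h.ok
  by_contra k
  rw [not_lt] at k
  have a1 : ln * u * x ≤ ld * v * (2 * x + 5) := by
    have := Nat.mul_le_mul_left (A * B) (Nat.mul_le_mul i1 h1)
    rw [← h.es]
    conv_lhs => rw [← h.ex]
    rw [h.eln, h.eld]
    calc _ = _ := by ring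
      _ ≤ _ := this
      _ = _ := by ring
  have a2 : ld * v ≤ x := by
    rw [← h.ex, h.eld]
    exact Nat.mul_le_mul (Nat.mul_le_mul_left _ i2) h2
  have a3 := Nat.mul_le_mul_right x k
  have := h.pos
  nlinarith

theorem Inv.ab0 (h : Inv x f M c A B ops Rem L R ln ld hn H) : ln < 2 * ld + 6 := by
  have := h.ab (u := 1) (v := 1) (by simpa using rem_lo f Rem)
    (prod_pos fun q hq => pow_pos (h.rem q hq).1.pos _)
  omega

theorem Inv.ab1 (h : Inv x f M c A B ops Rem L R ln ld hn H) {q : ℕ} (hq : q ∈ Rem) :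
    ln * (q + 1) < 2 * ld * q + 6 := by
  obtain ⟨p1, -, -, p2⟩ := h.rem q hq
  refine h.ab ?_ ?_
  · rw [← mul_prod_erase Rem _ hq, ← mul_prod_erase Rem (fun q => g q (f q + 1)) hq, ← mul_assoc,
      ← mul_assoc]
    exact Nat.mul_le_mul (g_lo (by omega)) (rem_lo f _)
  · exact (Nat.le_self_pow (by omega) q).trans (single_le_prod' (f := fun q => q ^ f q)
      (fun z hz => pow_pos (h.rem z hz).1.pos _) hq)

theorem Inv.low_lt (h : Inv x f M c A B ops Rem L R ln ld hn H) {q : ℕ} (hq : q ∈ Rem) :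
    low L ln (2 * ld - ln) < q := by
  have h1 := h.ab1 hq
  obtain ⟨p1, p2, -⟩ := h.rem q hq
  have h2 : (ln - 6) / (2 * ld - ln) < q := by
    rcases Nat.eq_zero_or_pos (2 * ld - ln) with e | e
    · rw [e, Nat.div_zero]; omega
    · rw [Nat.div_lt_iff_lt_mul e]
      obtain ⟨a, ha⟩ : ∃ a, 2 * ld = ln + a := ⟨2 * ld - ln, by omega⟩
      rw [ha, Nat.add_sub_cancel_left] at e ⊢
      rw [ha] at h1
      have : 0 < q * a := Nat.mul_pos (by omega) e
      have : ln < q * a + 6 := by nlinarith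
      omega
  unfold low mx
  cases Nat.ble L (Nat.div (Nat.sub ln 6) (2 * ld - ln))
  · exact p2
  · exact h2

theorem Inv.df (h : Inv x f M c A B ops Rem L R ln ld hn H) {u v : ℕ} (hv : 0 < v)
    (h1 : (∏ q ∈ Rem, g q (f q + 1)) * v ≤ u * ∏ q ∈ Rem, q ^ f q) :
    2 * (B * H) * v < hn * u := by
  obtain ⟨-, -, i3, i4, -⟩ := ops_ineq h.ok
  have a1 : (2 * x + 5) * (B * H * v) ≤ hn * u * x := by
    have := Nat.mul_le_mul_left (A * B) (Nat.mul_le_mul i3 h1)
    rw [← h.es]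
    conv_rhs => rw [← h.ex]
    rw [h.ehn, h.eH]
    calc _ = _ := by ring
      _ ≤ _ := this
      _ = _ := by ring
  have hB : 0 < B := Nat.pos_of_ne_zero fun e => by
    have := h.ex
    rw [e] at this
    have := h.pos
    omega
  have a2 : 0 < B * H * v := Nat.mul_pos (Nat.mul_pos hB (h.eH ▸ i4)) hv
  by_contra k
  rw [not_lt] at k
  have := Nat.mul_le_mul_right x k
  nlinarith

theorem Inv.odd (h : Inv x f M c A B ops Rem L R ln ld hn H) {q : ℕ} (hq : q ∈ Rem) : Odd q :=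
  (h.rem q hq).1.odd_of_ne_two (by have := (h.rem q hq).2.1; have := h.l5; omega)

theorem Inv.dfN (h : Inv x f M c A B ops Rem L R ln ld hn H) {L' : ℕ} (ho : Odd L')
    (hl : ∀ q ∈ Rem, L' < q) : 2 * (B * H) * DD L' Rem.card < hn * NN L' Rem.card :=
  h.df (DD_pos _ _) (rem_hi f _ L' Rem ho rfl fun q hq => ⟨h.odd hq, hl q hq⟩)

theorem Inv.need3 (h : Inv x f M c A B ops Rem L R ln ld hn H) {t : Bool} (ht : t = true → 3 ∣ x)
    (hn3 : n3 t A H = true) : ∃ q ∈ Rem, q % 3 = 1 := by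
  unfold n3 at hn3
  cases t
  · exact absurd hn3 (by simp)
  cases e : Nat.beq (Nat.mod A 3) 2
  · rw [e] at hn3
    have e1 : A % 3 ≠ 2 := Nat.ne_of_beq_eq_false e
    have e2 : 1 ≤ H % 3 := Nat.le_of_ble_eq_true hn3
    by_contra k
    simp only [not_exists, not_and] at k
    have e3 := (ops_ineq h.ok).2.2.2.2.1 (by rw [← h.eH]; omega)
    have e4 : (∏ q ∈ Rem, g q (f q + 1)) % 3 = 1 := by
      rw [prod_nat_mod, prod_eq_one fun q hq => g_mod3 (k q hq) (h.rem q hq).2.2.1]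
      rfl
    have e5 := congrArg (· % 3) h.es
    have e6 := ht rfl
    simp only [Nat.mul_mod (A * _), Nat.mul_mod A, e3, e4] at e5
    omega
  · rw [e] at hn3; exact absurd hn3 (by simp)

theorem Inv.need5 (h : Inv x f M c A B ops Rem L R ln ld hn H) {t : Bool} (ht : t = true → 25 ∣ x)
    (hn5 : n5 t A H = true) : ∃ q ∈ Rem, q % 5 = 1 := by
  unfold n5 at hn5
  cases t
  · exact absurd hn5 (by simp)
  cases e : Nat.beq (Nat.mod A 5) 0
  · rw [e] at hn5
    have e1 : A % 5 ≠ 0 := Nat.ne_of_beq_eq_false e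
    have e2 : 1 ≤ H % 5 := Nat.le_of_ble_eq_true hn5
    by_contra k
    simp only [not_exists, not_and] at k
    have e3 := (ops_ineq h.ok).2.2.2.2.2 (by rw [← h.eH]; omega)
    have e6 := ht rfl
    have d : 5 ∣ A * (ops.map fun o => g o.1 (f o.1 + 1)).prod * ∏ q ∈ Rem, g q (f q + 1) := by
      rw [h.es]; omega
    rcases Nat.prime_five.dvd_mul.1 d with d | d
    · exact (Nat.prime_five.dvd_mul.1 d).elim (by omega) e3
    · obtain ⟨q, hq, d⟩ := (Nat.prime_five.prime.dvd_finsetProd_iff _).1 d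
      exact g_mod5 (k q hq) (h.rem q hq).2.2.1 d
  · rw [e] at hn5; exact absurd hn5 (by simp)

theorem Inv.perm {ops' : List O} (h : Inv x f M c A B ops Rem L R ln ld hn H) (p : ops'.Perm ops) :
    Inv x f M c A B ops' Rem L R ln ld hn H :=
  { h with
    ex := by rw [(p.map _).prod_eq]; exact h.ex
    es := by rw [(p.map _).prod_eq]; exact h.es
    ok := fun o ho => h.ok o (p.subset ho)
    eln := by rw [(p.map _).prod_eq]; exact h.eln
    eld := by rw [(p.map _).prod_eq]; exact h.eld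
    ehn := by rw [(p.map _).prod_eq]; exact h.ehn
    eH := by rw [(p.map _).prod_eq]; exact h.eH }

end Pool.Agent.P.MP_df609a_nt.Odd
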