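import Pool.Agent.P.MP_df609a_nt.Odd.Chk

/-! Runs of the search procedure. -/

namespace Pool.Agent.P.MP_df609a_nt.Odd

theorem run1 : s35 60 1 4 = true := by decide +kernel

theorem run7 : s35 60 7 4 = true := by decide +kernel

theorem run11 : s35 60 11 4 = true := by decide +kernel

theorem run13 : s35 60 13 4 = true := by decide +kernel

theorem runA : ∀ r < 4, s35 2 1 r = true := by decide +kernel

theorem runB : ∀ r < 6, s3 2 1 r = true := by decide +kernel

theorem runC : ∀ r < 6, s5 2 1 r = true := by decide +kernel

theorem runD : ∀ r < 7, s1 2 1 r = true := by decide +kernel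

end Pool.Agent.P.MP_df609a_nt.Odd
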