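import Pool.Agent.P.MP_df609a_nt.Odd.Chk

/-! Runs of the search procedure. -/

namespace Pool.Agent.P.MP_df609a_nt.Odd

theorem run31 : s35 60 31 4 = true := by decide +kernel

theorem run37 : s35 60 37 4 = true := by decide +kernel

theorem run41 : s35 60 41 4 = true := by decide +kernel

theorem run43 : s35 60 43 4 = true := by decide +kernel

end Pool.Agent.P.MP_df609a_nt.Odd
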