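import Pool.Agent.P.MP_df609a_nt.Odd.Snd
import Pool.Agent.P.MP_df609a_nt.Odd.RunA
import Pool.Agent.P.MP_df609a_nt.Odd.RunB
import Pool.Agent.P.MP_df609a_nt.Odd.RunC
import Pool.Agent.P.MP_df609a_nt.Odd.RunD

/-! An odd solution has at least seven distinct prime factors. -/

namespace Pool.Agent.P.MP_df609a_nt.Odd

open Finset

theorem run_all {c : ℕ} (h : c < 60) (h2 : c % 2 = 1) (h3 : c % 3 ≠ 0) (h5 : c % 5 ≠ 0) :
    s35 60 c 4 = true := by
  have a : ∀ c < 60, c % 2 = 1 ∧ c % 3 ≠ 0 ∧ c % 5 ≠ 0 →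
      c ∈ [1, 7, 11, 13, 17, 19, 23, 29, 31, 37, 41, 43, 47, 49, 53, 59] := by decide +kernel
  have b : ∀ c ∈ [1, 7, 11, 13, 17, 19, 23, 29, 31, 37, 41, 43, 47, 49, 53, 59], s35 60 c 4 = true := by
    simp only [List.forall_mem_cons]
    exact ⟨run1, run7, run11, run13, run17, run19, run23, run29, run31, run37, run41, run43, run47, run49, run53, run59,
      by simp⟩
  exact b c (a c h ⟨h2, h3, h5⟩)

theorem g_mod2 {p : ℕ} (hp : Odd p) (n : ℕ) : g p n % 2 = n % 2 := by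
  induction n with
  | zero => simp [g]
  | succ n ih => rw [g_succ, Nat.add_mod, Nat.mul_mod, Nat.odd_iff.1 hp, ih]; omega

/-- The residue of the second largest element. -/
theorem exists_res {s : Finset ℕ} (h : ∀ q ∈ s, q.Prime ∧ 5 < q) : ∃ c < 60, c % 2 = 1 ∧
    c % 3 ≠ 0 ∧ c % 5 ≠ 0 ∧ ∀ q ∈ s, (s.filter (q < ·)).card = 1 → q % 60 = c := by
  by_cases e : ∃ q ∈ s, (s.filter (q < ·)).card = 1
  · obtain ⟨q, hq, h1⟩ := e
    obtain ⟨p1, p2⟩ := h q hq
    have d : ∀ l, l.Prime → l ≤ 5 → q % l ≠ 0 := fun l a b e => by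
      have := (Nat.prime_dvd_prime_iff_eq a p1).1 (Nat.dvd_of_mod_eq_zero e)
      omega
    have d2 := d 2 Nat.prime_two (by norm_num)
    have d3 := d 3 Nat.prime_three (by norm_num)
    have d5 := d 5 Nat.prime_five le_rfl
    have key : ∀ a b, b ∈ s → (s.filter (a < ·)).card = 1 → (s.filter (b < ·)).card = 1 → ¬ a < b :=
      fun a b hb ca cb l => by
        have : s.filter (b < ·) ⊂ s.filter (a < ·) :=
          ⟨fun z hz => mem_filter.2 ⟨(mem_filter.1 hz).1, l.trans (mem_filter.1 hz).2⟩,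
            fun k => lt_irrefl b (mem_filter.1 (k (mem_filter.2 ⟨hb, l⟩))).2⟩
        have := card_lt_card this
        omega
    refine ⟨q % 60, Nat.mod_lt _ (by norm_num), by omega, by omega, by omega, fun z hz h2 => ?_⟩
    rw [le_antisymm (not_lt.1 (key q z hz h1 h2)) (not_lt.1 (key z q hq h2 h1))]
  · exact ⟨1, by norm_num, rfl, by norm_num, by norm_num, fun q hq h1 => absurd ⟨q, hq, h1⟩ e⟩

theorem two_mul_case {x : ℕ} (ho : Odd x) (h : ∑ d ∈ x.divisors, d = 2 * x + 5) :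
    7 ≤ x.primeFactors.card := by
  have h0 : x ≠ 0 := ho.pos.ne'
  have ex := (Nat.prod_primeFactors_pow_factorization h0).symm
  have es : ∏ p ∈ x.primeFactors, g p (x.factorization p + 1) = 2 * x + 5 := by
    rw [← h, Nat.sum_divisors h0]; rfl
  obtain ⟨f, hf⟩ : ∃ f : ℕ → ℕ, f = x.factorization := ⟨_, rfl⟩
  have pr : ∀ p ∈ x.primeFactors, p.Prime ∧ Odd p ∧ Even (f p) ∧ 2 ≤ f p ∧ p ^ f p ∣ x := by
    intro p hp
    have a := Nat.prime_of_mem_primeFactors hp
    have b := ho.of_dvd_nat (Nat.dvd_of_mem_primeFactors hp)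
    have c := a.factorization_pos_of_dvd h0 (Nat.dvd_of_mem_primeFactors hp)
    have d : Odd (g p (x.factorization p + 1)) :=
      (show Odd (2 * x + 5) from ⟨x + 2, by ring⟩).of_dvd_nat (es ▸ dvd_prod_of_mem _ hp)
    rw [Nat.odd_iff, g_mod2 b] at d
    rw [hf, Nat.even_iff]
    exact ⟨a, b, by omega, by omega, Nat.ordProj_dvd x p⟩
  rw [← hf] at ex es
  have sq : IsSquare x := ex ▸ Finset.isSquare_prod _ fun p hp => (pr p hp).2.2.1.isSquare_pow _
  have cop := cop_BP sq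
  have c5 : ¬ 5 ∈ x.primeFactors → Nat.Coprime (BP * 5) (2 * x + 5) := fun k =>
    cop.mul_left (Nat.prime_five.coprime_iff_not_dvd.2 fun d =>
      k (Nat.mem_primeFactors.2 ⟨Nat.prime_five, by omega, h0⟩))
  have k3 : 3 ∈ x.primeFactors → OK f (3, 9, 13) ∧ 3 ∣ x := fun k =>
    ⟨⟨by norm_num, (pr 3 k).2.2.1, 2, by decide, (pr 3 k).2.2.2.1, rfl, by decide⟩,
      Nat.dvd_of_mem_primeFactors k⟩
  have k5 : 5 ∈ x.primeFactors → OK f (5, 25, 31) ∧ 25 ∣ x := fun k =>
    ⟨⟨by norm_num, (pr 5 k).2.2.1, 2, by decide, (pr 5 k).2.2.2.1, rfl, by decide⟩,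
      (pow_dvd_pow 5 (pr 5 k).2.2.2.1).trans (pr 5 k).2.2.2.2⟩
  generalize x.primeFactors = P at *
  have rm : ∀ q ∈ (P.erase 3).erase 5, q.Prime ∧ 5 < q ∧ Even (f q) ∧ 2 ≤ f q := fun q hq => by
    simp only [mem_erase] at hq
    obtain ⟨a, b, c, d, -⟩ := pr q hq.2.2
    have := a.two_le
    rw [Nat.odd_iff] at b
    exact ⟨a, by omega, c, d⟩
  have s2 : ∀ q ∈ (P.erase 3).erase 5, (((P.erase 3).erase 5).filter (q < ·)).card = 1 →
      q % 2 = 1 := fun q hq _ => Nat.odd_iff.1 (pr q (mem_of_mem_erase (mem_of_mem_erase hq))).2.1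
  by_contra hc
  by_cases m3 : 3 ∈ P <;> by_cases m5 : 5 ∈ P
  · have m5' : 5 ∈ P.erase 3 := by simp [m5]
    rw [← mul_prod_erase P _ m3, ← mul_prod_erase _ _ m5'] at ex es
    have cd : ((P.erase 3).erase 5).card + 2 = P.card := by
      rw [← card_erase_add_one m3, ← card_erase_add_one m5']
    have iv : ∀ M c, (∀ q ∈ (P.erase 3).erase 5, (((P.erase 3).erase 5).filter (q < ·)).card = 1 →
        q % M = c) → Inv x f M c 1 1 [(3, 9, 13), (5, 25, 31)] ((P.erase 3).erase 5) 5 BP 403 225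
          15 8 := fun M c sp =>
      ⟨ho.pos, sq, by simpa [mul_assoc] using ex, by simpa [mul_assoc] using es,
        by simp [(k3 m3).1, (k5 m5).1], rm, le_rfl, by decide, cop, rfl, rfl, rfl, rfl, sp⟩
    by_cases c4 : ((P.erase 3).erase 5).card = 4
    · obtain ⟨c, a1, a2, a3, a4, a5⟩ := exists_res fun q hq => ⟨(rm q hq).1, (rm q hq).2.1⟩
      exact go_snd a1 (fun _ => (k3 m3).2) (fun _ => (k5 m5).2) 40 _ _ _ _ _ _ _ _ _ _ (iv 60 c a5)
        (c4 ▸ run_all a1 a2 a3 a4)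
    · exact go_snd one_lt_two (fun _ => (k3 m3).2) (fun _ => (k5 m5).2) 40 _ _ _ _ _ _ _ _ _ _
        (iv 2 1 s2) (runA _ (by omega))
  · rw [erase_eq_of_notMem (s := P.erase 3) (by simp [m5])] at rm s2
    rw [← mul_prod_erase P _ m3] at ex es
    have cd := card_erase_add_one m3
    exact go_snd one_lt_two (fun _ => (k3 m3).2) (by simp) 40 _ _ _ _ _ _ _ _ _ _
      ⟨ho.pos, sq, by simpa using ex, by simpa using es, by simp [(k3 m3).1], rm, le_rfl,
        by decide, c5 m5, rfl, rfl, rfl, rfl, s2⟩ (runB _ (by omega))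
  · rw [erase_eq_of_notMem m3] at rm s2
    rw [← mul_prod_erase P _ m5] at ex es
    have cd := card_erase_add_one m5
    exact go_snd one_lt_two (by simp) (fun _ => (k5 m5).2) 40 _ _ _ _ _ _ _ _ _ _
      ⟨ho.pos, sq, by simpa using ex, by simpa using es, by simp [(k5 m5).1], rm, le_rfl,
        by decide, cop, rfl, rfl, rfl, rfl, s2⟩ (runC _ (by omega))
  · rw [erase_eq_of_notMem m3, erase_eq_of_notMem m5] at rm s2
    exact go_snd one_lt_two (by simp) (by simp) 40 _ _ _ _ _ _ _ _ _ _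
      ⟨ho.pos, sq, by simpa using ex, by simpa using es, by simp, rm, le_rfl,
        by decide, c5 m5, rfl, rfl, rfl, rfl, s2⟩ (runD _ (by omega))

theorem seven_le {x : ℕ} (ho : Odd x) (h : (∑ d ∈ x.divisors, d) % x = 5) :
    7 ≤ x.primeFactors.card := by
  have h0 : x ≠ 0 := ho.pos.ne'
  have hx : 5 < x := h ▸ Nat.mod_lt _ ho.pos
  have e := Nat.div_add_mod (∑ d ∈ x.divisors, d) x
  rw [h] at e
  by_contra hc
  have b := rem_hi x.factorization _ 1 x.primeFactors (by decide) rfl fun q hq =>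
    ⟨ho.of_dvd_nat (Nat.dvd_of_mem_primeFactors hq), (Nat.prime_of_mem_primeFactors hq).one_lt⟩
  rw [← Nat.prod_primeFactors_pow_factorization h0,
    show ∏ q ∈ x.primeFactors, g q (x.factorization q + 1) = ∑ d ∈ x.divisors, d from
      (Nat.sum_divisors h0).symm] at b
  have b3 : ∑ d ∈ x.divisors, d ≤ 3 * x := by
    generalize x.primeFactors.card = r at *
    have : r < 7 := by omega
    interval_cases r <;> simp only [NN, DD] at b <;> omega
  have e1 := Nat.sum_divisors_eq_sum_properDivisors_add_self (n := x)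
  generalize (∑ d ∈ x.divisors, d) / x = k at e
  rcases k with _ | _ | _ | k
  · omega
  · have e2 : ∑ d ∈ x.properDivisors, d = 5 := by omega
    have e3 : x.properDivisors ∈ ({1, 3, 5} : Finset ℕ).powerset := by
      refine mem_powerset.2 fun d hd => ?_
      have a := single_le_sum (f := fun d => d) (fun _ _ => Nat.zero_le _) hd
      have o := Nat.odd_iff.1 (ho.of_dvd_nat (Nat.mem_properDivisors.1 hd).1)
      simp only [mem_insert, mem_singleton] at a ⊢
      omega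
    have e4 : ∀ s ∈ ({1, 3, 5} : Finset ℕ).powerset, 1 ∈ s → ∑ d ∈ s, d ≠ 5 := by decide
    exact e4 _ e3 (Nat.one_mem_properDivisors_iff_one_lt.2 (by omega)) e2
  · exact hc (two_mul_case ho (by omega))
  · nlinarith [Nat.zero_le (x * k)]

end Pool.Agent.P.MP_df609a_nt.Odd
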