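import Pool.Agent.P.MP_df609a_nt.Odd.Inv

/-! Soundness of the search procedure. -/

namespace Pool.Agent.P.MP_df609a_nt.Odd

open Finset

/-- a sound recursive call -/
def Snd (x : ℕ) (f : ℕ → ℕ) (M c : ℕ) (ih : Go) : Prop :=
  ∀ A B ops Rem L R ln ld hn H, Inv x f M c A B ops Rem L R ln ld hn H →
    ih A B ops Rem.card L R ln ld hn H = true → False

theorem brec {α : Type} {a b : α} {t : Bool} {P : α → Prop} (h : P (Bool.rec a b t)) :
    (t = false ∧ P a) ∨ (t = true ∧ P b) := by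
  cases t
  · exact Or.inl ⟨rfl, h⟩
  · exact Or.inr ⟨rfl, h⟩

theorem bt {a b t : Bool} (h : (Bool.rec a b t : Bool) = true) :
    (t = false ∧ a = true) ∨ (t = true ∧ b = true) := brec (P := fun z => z = true) h

theorem div_eq (a b : ℕ) : Nat.div a b = a / b := rfl

theorem nle {a b : ℕ} (h : Nat.ble a b = false) : b < a := by
  rw [← Bool.not_eq_true, Nat.ble_eq] at h
  omega

variable {x : ℕ} {f : ℕ → ℕ} {M c A B : ℕ} {ops : List O} {Rem : Finset ℕ} {L R ln ld hn H : ℕ}
  {ih : Go} {three five : Bool}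

theorem cand_snd (s : Snd x f M c ih) (h : Inv x f M c A B ops Rem L R ln ld hn H) {q r : ℕ}
    (hq : q ∈ Rem) (hmin : ∀ z ∈ Rem, q ≤ z) (hr : Rem.card = r + 1)
    (k : cand ih A B ops r R ln ld hn H q = true) : False := by
  obtain ⟨p1, p2, p3, p4⟩ := h.rem q hq
  have l5 := h.l5
  have ex := h.ex
  have es := h.es
  rw [← mul_prod_erase Rem _ hq] at ex es
  have d1 : q ∣ x := by
    rw [← ex]
    exact ((dvd_pow_self q (by omega)).mul_right _).mul_left _
  have d2 : ¬ q ∣ 2 * x + 5 := fun d => by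
    have := Nat.le_of_dvd (by norm_num) ((Nat.dvd_add_right (d1.mul_left 2)).1 d)
    omega
  have d3 : g q (f q + 1) ∣ 2 * x + 5 := by
    rw [← es]; exact (dvd_mul_right _ _).mul_left _
  have c1 : Nat.Coprime (R * q) (2 * x + 5) := h.cop.mul_left (p1.coprime_iff_not_dvd.2 d2)
  unfold cand at k
  rw [mp_prime p1 (by omega)] at k
  rcases bt k with ⟨-, k⟩ | ⟨k, -⟩
  swap
  · refine d2 ((Nat.dvd_of_mod_eq_zero (Nat.eq_of_beq_eq_true k)).trans ?_)
    rw [← es]
    exact (dvd_mul_right _ _).mul_right _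
  have e1 : Nat.mul q q = q ^ 2 := (pow_two q).symm
  have e2 : Nat.add (Nat.mul q q) (Nat.add q 1) = g q (2 + 1) := by
    simp [g, sum_range_succ]; ring
  rw [e2, e1] at k
  obtain ⟨e, b1, b2, k⟩ := nf_spec p3 (not_bad h.sq d3) (c1.symm.coprime_dvd_left d3) 60 2
    (by decide) p4 k
  refine s A B _ (Rem.erase q) q _ _ _ _ _ (Inv.perm ?_ (ins_perm _ _))
    (by rw [card_erase_of_mem hq, hr]; exact k)
  refine ⟨h.pos, h.sq, ?_, ?_, List.forall_mem_cons.2 ⟨⟨p1.two_le, p3, e, b1, b2, rfl, rfl⟩, h.ok⟩,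
    fun z hz => ?_, by omega, h.odd hq, c1, ?_, ?_, ?_, ?_, fun z hz hc => ?_⟩
  · rw [← ex, List.map_cons, List.prod_cons]; ring
  · rw [← es, List.map_cons, List.prod_cons]; ring
  · obtain ⟨a, -, b⟩ := h.rem z (mem_of_mem_erase hz)
    exact ⟨a, lt_of_le_of_ne (hmin z (mem_of_mem_erase hz)) (ne_of_mem_erase hz).symm, b⟩
  · rw [List.map_cons, List.prod_cons, h.eln, Nat.mul_eq]; ring
  · rw [List.map_cons, List.prod_cons, h.eld, Nat.mul_eq]; ring
  · rw [List.map_cons, List.prod_cons, h.ehn, Nat.mul_eq]; ring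
  · rw [List.map_cons, List.prod_cons, h.eH, Nat.mul_eq, mul_comm]; rfl
  · refine h.sp z (mem_of_mem_erase hz) ?_
    rw [← hc, filter_erase, erase_eq_of_notMem]
    simpa using fun _ => hmin z (mem_of_mem_erase hz)

theorem refine_snd (s : Snd x f M c ih) (h5 : five = true → 25 ∣ x)
    (h : Inv x f M c A B ops Rem L R ln ld hn H)
    (k : refine five ih A B ops Rem.card L R ln ld hn H = true) : False := by
  rcases ops with _ | ⟨⟨p, P, S⟩, rest⟩
  · exact absurd k (by simp [refine])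
  obtain ⟨⟨o1, o2, e, o3, o4, o5, o6⟩, ok⟩ := List.forall_mem_cons.1 h.ok
  dsimp only at o1 o2 o4 o5 o6
  subst o5 o6
  have ex := h.ex
  have es := h.es
  have eln := h.eln
  have eld := h.eld
  have ehn := h.ehn
  have eH := h.eH
  simp only [List.map_cons, List.prod_cons] at ex es eln eld ehn eH
  have d3 : A * g p (f p + 1) ∣ 2 * x + 5 := by
    rw [← es, ← mul_assoc]; exact (dvd_mul_right _ _).mul_right _
  have d4 := (dvd_mul_left _ _).trans d3
  have c1 := h.cop.symm.coprime_dvd_left d4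
  rcases bt k with ⟨-, k⟩ | ⟨k1, k2⟩
  · exact absurd k (by simp)
  rcases o4.lt_or_eq with l | l
  · have e1 : Nat.mul (Nat.mul (p ^ e) p) p = p ^ (e + 2) := by
      rw [pow_succ, pow_succ]; rfl
    have e2 : Nat.add (Nat.mul (Nat.mul (g p (e + 1)) p) p) (Nat.add p 1) = g p (e + 2 + 1) :=
      (g_two p e).symm
    dsimp only at k2
    rw [e1, e2] at k2
    obtain ⟨e', b1, b2, k⟩ := nf_spec o2 (not_bad h.sq d4) c1 60 (e + 2) (o3.add (by decide)) (by
      obtain ⟨u, hu⟩ := o2
      obtain ⟨v, hv⟩ := o3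
      omega) k2
    refine s A B _ Rem L _ _ _ _ _ (Inv.perm ?_ (ins_perm _ _)) k
    refine ⟨h.pos, h.sq, h.ex, h.es, List.forall_mem_cons.2 ⟨⟨o1, o2, e', b1, b2, rfl, rfl⟩, ok⟩,
      h.rem, h.l5, h.lodd, h.cop, ?_, ?_, h.ehn, h.eH, h.sp⟩
    · rw [List.map_cons, List.prod_cons, Nat.mul_eq, div_eq, eln, mul_left_comm,
        Nat.mul_div_cancel_left _ (by rw [g_succ]; omega)]
      ring
    · rw [List.map_cons, List.prod_cons, Nat.mul_eq, div_eq, eld, mul_left_comm,
        Nat.mul_div_cancel_left _ (by positivity)]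
      ring
  subst l
  unfold close at k1
  dsimp only at k1
  rw [show Nat.beq (Nat.gcd (g p (f p + 1)) R) 1 = true from Nat.beq_eq ▸ c1] at k1
  rcases bt k1 with ⟨-, k⟩ | ⟨k, -⟩
  · refine s _ _ rest Rem L R _ _ _ _ ⟨h.pos, h.sq, ?_, ?_, ok, h.rem, h.l5, h.lodd, h.cop, ?_, ?_,
      ?_, ?_, h.sp⟩ k
    · rw [← ex, Nat.mul_eq]; ring
    · rw [← es, Nat.mul_eq]; ring
    · rw [eln, Nat.mul_eq]; ring
    · rw [eld, Nat.mul_eq]; ring
    · rw [Nat.mul_eq, Nat.mul_eq, div_eq, ehn, mul_left_comm,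
        Nat.mul_div_cancel_left _ (by omega)]
      ring
    · rw [div_eq, eH]
      exact Nat.mul_div_cancel_left _ (show 0 < p - 1 by omega)
  · rcases bt k with ⟨-, k⟩ | ⟨k, k'⟩
    · exact absurd k (by simp)
    · have a := h5 k
      have b := (Nat.dvd_of_mod_eq_zero (Nat.eq_of_beq_eq_true k')).trans d3
      omega

theorem one_snd (s : Snd x f M c ih) (h5 : five = true → 25 ∣ x)
    (h : Inv x f M c A B ops Rem L R ln ld hn H) (hr : Rem.card = 1) {st : ℕ} (hst : 1 < st)
    (hm : ∀ z ∈ Rem, z % st = 1) (hb : hn < 2 * (B * H))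
    (k : one five ih A B ops L R ln ld hn H st (nxt (low L ln (2 * ld - ln)) st 1)
      (hn / (2 * (B * H) - hn) + 1) = true) : False := by
  obtain ⟨z, rfl⟩ := card_eq_one.1 hr
  have hz := mem_singleton_self z
  obtain ⟨i, hi⟩ := nxt_spec hst (h.low_lt hz) (hm z hz)
  have z2 := (h.rem z hz).1.two_le
  have hQ : z ≤ hn / (2 * (B * H) - hn) + 1 := by
    have := h.df (u := z) (v := z - 1) (by omega) (by simpa using g_hi (by omega) (f z))
    obtain ⟨b, hb'⟩ : ∃ b, 2 * (B * H) = hn + b := ⟨2 * (B * H) - hn, by omega⟩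
    obtain ⟨y, rfl⟩ : ∃ y, z = y + 1 := ⟨z - 1, by omega⟩
    rw [hb', Nat.add_sub_cancel] at this
    rw [hb', Nat.add_sub_cancel_left, Nat.add_le_add_iff_right, Nat.le_div_iff_mul_le (by omega)]
    nlinarith
  generalize hn / (2 * (B * H) - hn) + 1 = Q at *
  generalize nxt (low L ln (2 * ld - ln)) st 1 = q at *
  have cd := fun k => cand_snd (r := 0) s h hz (by simp) hr k
  unfold one at k
  rw [Nat.ble_eq_true_of_le (show q ≤ Q by omega)] at k
  rcases bt k with ⟨k0, k⟩ | ⟨-, k⟩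
  · have k1 : Q < q + 2 * st := nle k0
    rcases bt k with ⟨-, k⟩ | ⟨k, k'⟩
    · exact absurd k (by simp)
    rcases i with _ | _ | i
    · exact cd (by rw [hi]; exact k)
    · rw [zero_add, mul_one] at hi
      rw [show Nat.add q st = z from hi.symm, Nat.ble_eq_true_of_le hQ] at k'
      exact cd k'
    · nlinarith [Nat.zero_le (st * i)]
  · exact refine_snd s h5 h (hr ▸ k)

theorem many_snd (s : Snd x f M c ih) (hc : c < M) (h5 : five = true → 25 ∣ x)
    (h : Inv x f M c A B ops Rem L R ln ld hn H) {r b Q : ℕ} (hr : Rem.card = r + 2)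
    (k : many five M c ih A B ops r L R ln ld hn H (2 * (B * H)) (2 * ld - ln) b Q = true) :
    False := by
  unfold many at k
  rw [Bool.or_eq_true, Nat.ble_eq, ← hr] at k
  rcases k with k | k
  · exact absurd k (h.dfN h.lodd fun q hq => (h.rem q hq).2.1).not_ge
  cases e : (Nat.ble (22 * b * ld) (10 * (2 * ld - ln) * (2 * (B * H))) && !ops.isEmpty)
  swap
  · rw [e] at k; exact refine_snd s h5 h k
  rw [e, cond_false, Bool.and_eq_true, Nat.ble_eq] at k
  obtain ⟨z, hz, hmin⟩ := exists_min_image Rem id (card_pos.1 (by omega))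
  have hQ : z ≤ 2 * Q + 1 := by
    by_contra a
    exact absurd k.1 (h.dfN (odd_two_mul_add_one Q) fun q hq =>
      lt_of_lt_of_le (not_le.1 a) (hmin q hq)).not_ge
  have cd := fun k => cand_snd (r := r + 1) s h hz hmin hr k
  cases e' : Nat.beq r 0
  · have k2 := k.2
    rw [e', cond_false] at k2
    obtain ⟨i, hi⟩ := nxt_spec one_lt_two (h.low_lt hz) (Nat.odd_iff.1 (h.odd hz))
    exact cd (by rw [hi] at hQ ⊢; exact rng_spec k2 two_pos i hQ)
  · have k2 := k.2
    rw [e', cond_true] at k2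
    obtain ⟨i, hi⟩ := nxt_spec hc (h.low_lt hz) (h.sp z hz (by
      have : Rem.filter (z < ·) = Rem.erase z := by
        ext y
        rw [mem_filter, mem_erase]
        exact ⟨fun a => ⟨a.2.ne', a.1⟩, fun a => ⟨a.2, lt_of_le_of_ne (hmin y a.2) a.1.symm⟩⟩
      rw [this, card_erase_of_mem hz, hr, Nat.eq_of_beq_eq_true e']))
    exact cd (by rw [hi] at hQ ⊢; exact rng_spec k2 (by omega) i hQ)

theorem node_snd (s : Snd x f M c ih) (hc : c < M) (h3 : three = true → 3 ∣ x)
    (h5 : five = true → 25 ∣ x) (h : Inv x f M c A B ops Rem L R ln ld hn H)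
    (k : node three five M c ih A B ops Rem.card L R ln ld hn H (2 * (B * H)) = true) : False := by
  rcases hr : Rem.card with _ | r
  · rw [hr] at k
    have he := card_eq_zero.1 hr
    rcases bt k with ⟨-, k⟩ | ⟨k, -⟩
    · rcases bt k with ⟨-, k⟩ | ⟨k, -⟩
      · rcases bt k with ⟨-, k⟩ | ⟨k, -⟩
        · exact refine_snd s h5 h (hr ▸ k)
        · simpa [he] using h.need5 h5 k
      · simpa [he] using h.need3 h3 k
    · have := h.df (u := 1) (v := 1) one_pos (by simp [he])
      have := Nat.le_of_ble_eq_true k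
      omega
  rw [hr] at k
  rcases bt k with ⟨k0, k⟩ | ⟨-, k⟩
  swap
  · exact refine_snd s h5 h (hr ▸ k)
  rcases r with _ | r
  swap
  · exact many_snd s hc h5 h hr k
  refine one_snd s h5 h hr ?_ (fun z hz => ?_) (nle k0) k
  · cases n3 three A H <;> cases n5 five A H <;> decide
  · obtain ⟨y, rfl⟩ := card_eq_one.1 hr
    have o := Nat.odd_iff.1 (h.odd hz)
    have a := h.need3 h3
    have b := h.need5 h5
    rw [mem_singleton] at hz
    subst hz
    simp only [mem_singleton, exists_eq_left] at a b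
    revert a b
    cases n3 three A H <;> cases n5 five A H <;> intro a b
    · exact o
    · have := b rfl
      show z % 10 = 1
      omega
    · have := a rfl
      show z % 6 = 1
      omega
    · have := a rfl
      have := b rfl
      show z % 30 = 1
      omega

theorem go_snd (hc : c < M) (h3 : three = true → 3 ∣ x) (h5 : five = true → 25 ∣ x) (fuel : ℕ) :
    Snd x f M c (go three five M c fuel) := by
  induction fuel with
  | zero => exact fun _ _ _ _ _ _ _ _ _ _ _ k => absurd k (by simp [go])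
  | succ n ih =>
    intro A B ops Rem L R ln ld hn H h k
    rcases bt k with ⟨-, k⟩ | ⟨k, -⟩
    · exact node_snd ih hc h3 h5 h k
    · exact absurd (Nat.le_of_ble_eq_true k) h.ab0.not_ge

end Pool.Agent.P.MP_df609a_nt.Odd
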